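import Mathlib
import Pool.Agent.X90.DD.Dist

/-!
# MP_2000e9_nt: different patterns of one weight are linearly independent, for all but few tuples of arguments

A pattern in `k` variables is a list of letters `b + u_1 s_1 + ... + u_k s_k` with natural numbers `b`, `u_j`; at a
tuple `s` of natural numbers it gives an index. Its first letters may be constant, of arbitrary weight, such as in
`ζ(5, 1, s_1, 3, s_1 + s_2)`; the fronts of the pattern are the initial segments of the list of its constant first
letters.

Let `w_1, ..., w_r` be different admissible patterns in `k` variables which have the same weight for all tuples `s`.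
Suppose that two fronts of the same weight are equal, for example that no first letter is constant, or that all patterns
with a constant first letter begin with the same constant letters. For all but `K N ^ (k - 1)` of the tuples
`s ∈ [N, κ N] ^ k` the multiple zeta values `ζ(w_1(s)), ..., ζ(w_r(s))`, which are in the same space `Z_n`, satisfy no
nontrivial linear relation with integer coefficients of absolute value at most `C ^ N`, if `N` is large; `K` does not
depend on `C`.

The starting files on this page and on the page MP_56e040_nt require for this type of result a first argument which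
grows. An assumption on the fronts is necessary: `ζ(2, 1) ζ(s) = ζ(3) ζ(s)` and the stuffle product give a relation with
coefficients `± 1` between `ζ(2, 1, s)`, `ζ(3, s)` and other multiple zeta values of weight `s + 3`, for all `s`.

The theorem is the unused theorem `dist` of `Pool.Agent.X90.DD` (starting library). The order of the arguments is
reversed in comparison with the problem: the first argument belongs to the largest summation variable.
-/

set_option autoImplicit false

namespace Pool.Agent.Results.MP_2000e9_nt.PatternsOfOneWeight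

/-- `trunc [s_1, ..., s_r] m` is the sum of `∏ n_i ^ (-s_i)` over `m > n_1 > ... > n_r ≥ 1` -/
noncomputable def trunc : List ℕ → ℕ → ℝ
  | [], _ => 1
  | s :: l, m => ∑ j ∈ Finset.Ico 1 m, trunc l j / (j : ℝ) ^ s

/-- the multiple zeta value `ζ(s_1, ..., s_r)`, the sum of `∏ n_i ^ (-s_i)` over
`n_1 > ... > n_r ≥ 1`; `ζ() = 1` -/
noncomputable def mzv : List ℕ → ℝ
  | [] => 1
  | s :: l => ∑' m : ℕ, trunc l (m + 1) / ((m + 1 : ℕ) : ℝ) ^ s

/-- the letter `(b, u)` stands for `b + ∑ u_j s_j` -/
abbrev Letter (k : ℕ) : Type := ℕ × (Fin k → ℕ)

/-- the index given by a pattern at the tuple `s` -/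
def index {k : ℕ} (s : Fin k → ℕ) (w : List (Letter k)) : List ℕ :=
  w.map fun u => u.1 + ∑ j, u.2 j * s j

/-- constant letters are positive, and the first letter is at least two if it is constant -/
def AdmissiblePattern {k : ℕ} (w : List (Letter k)) : Prop :=
  (∀ u ∈ w.head?, u.2 ≠ 0 ∨ 2 ≤ u.1) ∧ ∀ u ∈ w, u.2 ≠ 0 ∨ 1 ≤ u.1

open Classical in
/-- the constant letters in front of the first letter which is not constant -/
def constantPart {k : ℕ} : List (Letter k) → List ℕ
  | [] => []
  | u :: w => if u.2 = 0 then u.1 :: constantPart w else []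

/-- the tuples in `[N, κ N] ^ k` at which the multiple zeta values of the patterns satisfy a nontrivial linear relation
with integer coefficients of absolute value at most `H` -/
def exceptional {k r : ℕ} (w : Fin r → List (Letter k)) (κ N : ℕ) (H : ℝ) : Set (Fin k → ℕ) :=
  {s | (∀ j, N ≤ s j ∧ s j ≤ κ * N) ∧ ∃ c : Fin r → ℤ, c ≠ 0 ∧ (∀ i, |(c i : ℝ)| ≤ H) ∧
    ∑ i, (c i : ℝ) * mzv (index s (w i)) = 0}

theorem trunc_eq : ∀ l m, trunc l m = Pool.Agent.Y760.ZG.hr l m := by
  intro l
  induction l with
  | nil => intro m; rw [trunc, Pool.Agent.Y760.ZG.hr]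
  | cons s l ih =>
    intro m
    rw [trunc, Pool.Agent.Y760.ZG.hr]
    exact Finset.sum_congr rfl fun j _ => by rw [ih]

theorem mzv_eq : ∀ l, mzv l = Pool.Agent.Y760.ZG.mz l := by
  intro l
  cases l with
  | nil => rw [mzv, Pool.Agent.Y760.ZG.mz]
  | cons s l =>
    rw [mzv, Pool.Agent.Y760.ZG.mz]
    exact tsum_congr fun k => by rw [trunc_eq]

theorem constantPart_eq {k : ℕ} : ∀ w : List (Letter k), constantPart w = Pool.Agent.X90.DC.fpx w := by
  intro w
  induction w with
  | nil => rw [constantPart, Pool.Agent.X90.DC.fpx]
  | cons u w ih =>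
    rw [constantPart, Pool.Agent.X90.DC.fpx, ih]

/-- Let `w_1, ..., w_r` be different admissible patterns in `k` variables which have the same weight at every tuple. If
initial segments of the same weight of the constant parts of the patterns are equal, then for every `κ` there is a `K`
such that for all real `C` and all sufficiently large `N`, for all but at most `K N ^ (k - 1)` of the tuples `s` of
integers `N ≤ s_j ≤ κ N`, the multiple zeta values `ζ(w_i(s))` satisfy no nontrivial linear relation with integer
coefficients of absolute value at most `C ^ N`. -/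
theorem result {k r : ℕ} (w : Fin r → List (Letter k)) (hw : ∀ i, AdmissiblePattern (w i))
    (hinj : Function.Injective w)
    (hweight : ∀ i j (s : Fin k → ℕ), (index s (w i)).sum = (index s (w j)).sum)
    (hfront : ∀ i j q q', q <+: constantPart (w i) → q' <+: constantPart (w j) → q.sum = q'.sum → q = q') (κ : ℕ) :
    ∃ K : ℕ, ∀ C : ℝ, ∃ N₀ : ℕ, ∀ N : ℕ, N₀ ≤ N → (exceptional w κ N (C ^ N)).ncard ≤ K * N ^ (k - 1) := by
  classical
  obtain ⟨K, hK⟩ := Pool.Agent.X90.DD.dist k r w hw hinj hweight
    (fun i j q q' h1 h2 => hfront i j q q' (by rw [constantPart_eq]; exact h1) (by rw [constantPart_eq]; exact h2)) κ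
  refine ⟨K, fun C => ?_⟩
  obtain ⟨N₀, hN₀⟩ := hK C
  refine ⟨N₀, fun N hN => ?_⟩
  have hfin : (exceptional w κ N (C ^ N)).Finite := by
    refine (Set.Finite.pi' (t := fun _ : Fin k => Set.Icc N (κ * N)) fun _ => Set.finite_Icc _ _).subset ?_
    intro s hs j
    exact ⟨(hs.1 j).1, (hs.1 j).2⟩
  rw [Set.ncard_eq_toFinset_card _ hfin]
  refine hN₀ N hN _ fun s hs => ?_
  rw [Set.Finite.mem_toFinset] at hs
  obtain ⟨h1, c, h2, h3, h4⟩ := hs
  refine ⟨h1, c, h2, h3, ?_⟩
  rw [← h4]
  exact Finset.sum_congr rfl fun i _ => by
    rw [mzv_eq]
    rfl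

end Pool.Agent.Results.MP_2000e9_nt.PatternsOfOneWeight
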