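import Pool.Agent.N84.MD.F
import Pool.Agent.Results.MP_2000e9_nt.PatternsOfOneWeight

/-!
# MP_2000e9_nt: independence of multiple zeta values with arguments near the dilates of almost every real vector

A pattern in `k` variables is a list of letters `b + u_1 s_1 + ... + u_k s_k` with natural numbers `b`, `u_j`; at a
tuple `s` of natural numbers it gives an index. Its first letters may be constant. Let `w_1, ..., w_r` be different
admissible patterns in `k` variables which have the same weight for all tuples `s`, and suppose that two fronts of the same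
weight are equal (for example that no first letter is constant).

We prove: for all real vectors `ξ` with positive coordinates, up to a set of Hausdorff dimension less than `k`, for ALL
large `N` in a sparse set `M` of integers (for instance `M` the set of the squares, or the powers of `2`) and ALL the tuples
`s` of integers near `N ξ`, `|s_j - N ξ_j| ≤ N ^ (1 - τ)`, for instance `s_j = [N ξ_j]` (`τ = 1`; for some smaller `τ` also,
so that there are many such tuples) the multiple zeta values `ζ(w_1(s)), ..., ζ(w_r(s))` of the same weight satisfy no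
nontrivial linear relation with integer coefficients of absolute value at most `C ^ N`.

The theorem `PatternsOfOneWeight` of this page (helper599) bounds the number of the exceptional tuples in `[N, κ N] ^ k` by
`K N ^ (k - 1)`, which does not exclude that there are exceptional tuples near all the points `N ξ`. Here the size of
the exceptional set of the directions and lengths `ξ` is estimated, by the Hausdorff-Cantelli lemma (`Pool.Agent.N84.MD`).
The order of the arguments is reversed in comparison with the problem.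
-/

set_option autoImplicit false

open Set Filter MeasureTheory
open scoped ENNReal

namespace Pool.Agent.Results.MP_2000e9_nt.ArgumentsAlongRealTuples

open Pool.Agent.Results.MP_2000e9_nt.PatternsOfOneWeight
  (mzv Letter index AdmissiblePattern constantPart exceptional)

/-- The multiple zeta values of the patterns at the tuple `s` satisfy no nontrivial linear relation with integer
coefficients of absolute value at most `H`. -/
def Independent {k r : ℕ} (w : Fin r → List (Letter k)) (H : ℝ) (s : Fin k → ℕ) : Prop :=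
  ∀ c : Fin r → ℤ, c ≠ 0 → (∀ i, |(c i : ℝ)| ≤ H) → ∑ i, (c i : ℝ) * mzv (index s (w i)) ≠ 0

/-- For all large `N` in `M` and all tuples `s` of natural numbers with `|ξ_j - s_j / N| ≤ N ^ (-τ)` there is no relation
at `s` with coefficients at most `C ^ N`. -/
def AllNearDilates {k r : ℕ} (w : Fin r → List (Letter k)) (C : ℝ) (M : Set ℕ) (τ : ℝ) (ξ : Fin k → ℝ) : Prop :=
  ∀ᶠ N : ℕ in atTop, N ∈ M → ∀ s : Fin k → ℕ, (∀ j, |ξ j - s j / N| ≤ (N : ℝ) ^ (-τ)) → Independent w (C ^ N) s

/-- Let `w_1, ..., w_r` be different admissible patterns in `k ≥ 1` variables which have the same weight at every tuple,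
such that initial segments of the same weight of the constant parts are equal, and let `C` be a real number. Let `M` be a
set of integers such that the sum of the `N ^ (-σ)`, `N ∈ M`, converges, and `τ > 0`. Then `AllNearDilates` holds for all
real vectors `ξ` with positive coordinates but a set of Hausdorff dimension at most `(k - 1 + σ) / τ`; if
`k - 1 + σ < τ k` it holds for almost all of them. (For the squares one can take any `σ > 1 / 2`, for the powers of `2` any
`σ > 0`, and then `τ = 1`, or even somewhat smaller.) -/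
theorem result {k r : ℕ} (hk : 1 ≤ k) (w : Fin r → List (Letter k)) (hw : ∀ i, AdmissiblePattern (w i))
    (hinj : Function.Injective w)
    (hweight : ∀ i j (s : Fin k → ℕ), (index s (w i)).sum = (index s (w j)).sum)
    (hfront : ∀ i j q q', q <+: constantPart (w i) → q' <+: constantPart (w j) → q.sum = q'.sum → q = q')
    (C : ℝ) (M : Set ℕ) (σ τ : ℝ) (hσ : 0 < σ) (hτ : 0 < τ) (hM : Summable fun N : M => ((N : ℕ) : ℝ) ^ (-σ)) :
    dimH {ξ : Fin k → ℝ | (∀ j, 0 < ξ j) ∧ ¬ AllNearDilates w C M τ ξ} ≤ ENNReal.ofReal (((k : ℝ) - 1 + σ) / τ) ∧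
    ((k : ℝ) - 1 + σ < τ * k → ∀ᵐ ξ : Fin k → ℝ, (∀ j, 0 < ξ j) → AllNearDilates w C M τ ξ) := by
  have hk1 : (1 : ℝ) ≤ k := by exact_mod_cast hk
  have hs : 0 ≤ (k : ℝ) - 1 := by linarith
  have hbad : ∀ κ : ℕ, 1 ≤ κ → ∃ (C' : ℝ) (N₀ : ℕ), ∀ N : ℕ, N₀ ≤ N →
      ({s : Fin k → ℕ | (∀ j, N ≤ κ * s j ∧ s j ≤ κ * N) ∧
        s ∈ {s : Fin k → ℕ | ¬ Independent w (C ^ N) s}}.ncard : ℝ) ≤ C' * (N : ℝ) ^ ((k : ℝ) - 1) := by
    intro κ hκ
    obtain ⟨K, hK⟩ := Pool.Agent.Results.MP_2000e9_nt.PatternsOfOneWeight.result w hw hinj hweight hfront (2 * κ ^ 2)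
    obtain ⟨N₀, hN₀⟩ := hK ((max |C| 1) ^ (2 * κ))
    refine ⟨K, κ * (N₀ + 1), fun N hN => ?_⟩
    obtain ⟨N', hN'⟩ : ∃ N', N' = N / κ := ⟨_, rfl⟩
    have h1 : N₀ + 1 ≤ N' := by
      rw [hN', Nat.le_div_iff_mul_le (by omega), mul_comm]
      exact hN
    have h2 : κ * N' ≤ N := by
      rw [hN']
      exact Nat.mul_div_le N κ
    have h3 : N ≤ 2 * κ * N' := by
      have h4 : N < κ * (N' + 1) := by
        rw [hN']
        have := Nat.div_add_mod N κ
        have := Nat.mod_lt N (show 0 < κ by omega)
        nlinarith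
      nlinarith
    have hsub : {s : Fin k → ℕ | (∀ j, N ≤ κ * s j ∧ s j ≤ κ * N) ∧
        s ∈ {s : Fin k → ℕ | ¬ Independent w (C ^ N) s}} ⊆
        exceptional w (2 * κ ^ 2) N' (((max |C| 1) ^ (2 * κ)) ^ N') := by
      rintro s ⟨hs1, hs2⟩
      rw [Set.mem_ofPred_eq] at hs2
      unfold Independent at hs2
      push Not at hs2
      obtain ⟨c, hc1, hc2, hc3⟩ := hs2
      refine ⟨fun j => ⟨?_, ?_⟩, c, hc1, fun i => (hc2 i).trans ?_, hc3⟩
      · have := (hs1 j).1
        exact Nat.le_of_mul_le_mul_left (h2.trans this) (by omega)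
      · refine (hs1 j).2.trans ?_
        calc κ * N ≤ κ * (2 * κ * N') := Nat.mul_le_mul_left κ h3
          _ = 2 * κ ^ 2 * N' := by ring
      · have h5 : (1 : ℝ) ≤ max |C| 1 := le_max_right _ _
        calc C ^ N ≤ |C ^ N| := le_abs_self _
          _ = |C| ^ N := abs_pow C N
          _ ≤ (max |C| 1) ^ N := pow_le_pow_left₀ (abs_nonneg C) (le_max_left _ _) N
          _ ≤ (max |C| 1) ^ (2 * κ * N') := pow_le_pow_right₀ h5 h3
          _ = _ := pow_mul _ _ _
    have hfin : (exceptional w (2 * κ ^ 2) N' (((max |C| 1) ^ (2 * κ)) ^ N')).Finite := by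
      refine (Set.Finite.pi (fun _ : Fin k => Set.finite_Iic (2 * κ ^ 2 * N'))).subset ?_
      intro s hs j _
      exact (hs.1 j).2
    have h6 := (Set.ncard_le_ncard hsub hfin).trans (hN₀ N' (by omega))
    have h7 : N' ≤ N := by
      rw [hN']
      exact Nat.div_le_self N κ
    have h8 : {s : Fin k → ℕ | (∀ j, N ≤ κ * s j ∧ s j ≤ κ * N) ∧
        s ∈ {s : Fin k → ℕ | ¬ Independent w (C ^ N) s}}.ncard ≤ K * N ^ (k - 1) :=
      h6.trans (Nat.mul_le_mul_left K (Nat.pow_le_pow_left h7 _))
    have h9 : (N : ℝ) ^ ((k : ℝ) - 1) = (N : ℝ) ^ (k - 1) := by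
      rw [← Real.rpow_natCast, Nat.cast_sub hk, Nat.cast_one]
    rw [h9]
    exact_mod_cast h8
  refine ⟨?_, fun hlt => ?_⟩
  · have := Pool.Agent.N84.MD.boxes (fun N => {s : Fin k → ℕ | ¬ Independent w (C ^ N) s}) hs hσ hτ hbad M hM
    simpa only [AllNearDilates, Set.mem_ofPred_eq, not_not] using this
  · have := Pool.Agent.N84.MD.boxes_ae (fun N => {s : Fin k → ℕ | ¬ Independent w (C ^ N) s}) hs hσ hτ hbad M hM hlt
    simpa only [AllNearDilates, Set.mem_ofPred_eq, not_not] using this

end Pool.Agent.Results.MP_2000e9_nt.ArgumentsAlongRealTuples
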