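import Pool.Agent.N760.SC.B
import Pool.Agent.Results.MP_2000e9_nt.PatternsOfOneWeight

/-!
# MP_2000e9_nt: multiple zeta values of one weight with arguments near the values of arithmetic functions

A pattern in `k` variables is a list of letters `b + u_1 s_1 + ... + u_k s_k` with natural numbers `b`, `u_j`; at a
tuple `s` of natural numbers it gives an index. The first letters may be constant. Let `w_1, ..., w_r` be different admissible
patterns with the same weight at every tuple, such that initial segments of the same weight of their constant parts are equal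
(`OneWeight`). The multiple zeta values `ζ(w_1(s)), ..., ζ(w_r(s))` are in the same space `Z_n`.

(1) Let `F_1, ..., F_k` be positive multiplicative functions of at most polynomial growth with `F_i p ≤ M p` for the large
primes `p` and different values at different large primes; for example Euler's function or the sum of the divisors. Let
`0 ≤ θ < 1 / k`. For all `k`-tuples `m` of positive integers up to `N` but `N^k / (log N)^U`, for ALL tuples `s` with
`|s_i - F_i(m_i)| ≤ F_i(m_i)^θ` and all `T` with `T ≤ s_i ≤ κ T` for all `i`, the numbers `ζ(w_i(s))` satisfy no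
nontrivial linear relation with integer coefficients of absolute value at most `C ^ T`.

(2) Let `φ_j` be the `j`-th iterate of Euler's function, `φ_0(m) = m`, let `f` be a function as in (1) (or the identity), let
`G` have steps bounded below by a positive constant and growth at most `v^d`, and `0 ≤ θ < 1`. There are `K(m)`
tending to infinity and a set `M` of natural numbers of density one such that for ALL such finite families of patterns
`w` in one variable and all `C`, for all large `m` in `M`, for all `j ≤ K(m)`, with `v = f(φ_j(m))`, for ALL `s` with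
`|s - G v| ≤ v^θ` the numbers `ζ(w_i(s))` satisfy no nontrivial linear relation with integer coefficients of absolute value
at most `C ^ s`.

The theorem `PatternsOfOneWeight` of this page (helper599) bounds the number of the exceptional tuples in `[N, κ N] ^ k` by
`K N ^ (k - 1)`. The values of the `F_i` and the members of the orbits are in general taken with very large multiplicities, and so
this does not follow from the number of the exceptional tuples.
-/

set_option autoImplicit false

namespace Pool.Agent.Results.MP_2000e9_nt.ArgumentsNearValues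

open Filter
open Pool.Agent.N733.TG (LM Expanding lm_totient lm_sigma expanding_pow)
open Pool.Agent.N760.IT (orb lm_id)
open Pool.Agent.N826.IT.Orb (AlmostAll almostAll_mono)
open Pool.Agent.Results.MP_2000e9_nt.PatternsOfOneWeight
  (mzv Letter index AdmissiblePattern constantPart exceptional)

/-- different admissible patterns of the same weight at every tuple; initial segments of the same weight of the constant parts
are equal -/
def OneWeight {k r : ℕ} (w : Fin r → List (Letter k)) : Prop :=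
  (∀ i, AdmissiblePattern (w i)) ∧ Function.Injective w ∧
    (∀ i j (s : Fin k → ℕ), (index s (w i)).sum = (index s (w j)).sum) ∧
    ∀ i j q q', q <+: constantPart (w i) → q' <+: constantPart (w j) → q.sum = q'.sum → q = q'

/-- the multiple zeta values of the patterns at the tuple `s` satisfy no nontrivial linear relation with integer coefficients
of absolute value at most `H` -/
def NoRelation {k r : ℕ} (w : Fin r → List (Letter k)) (H : ℝ) (s : Fin k → ℕ) : Prop :=
  ∀ c : Fin r → ℤ, (∀ i, |(c i : ℝ)| ≤ H) → ∑ i, (c i : ℝ) * mzv (index s (w i)) = 0 → c = 0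

lemma mono {k r : ℕ} (w : Fin r → List (Letter k)) {H H' : ℝ} (h : H ≤ H') (s : Fin k → ℕ)
    (hs : NoRelation w H' s) : NoRelation w H s :=
  fun c h1 h2 => hs c (fun i => (h1 i).trans h) h2

lemma exceptional_eq {k r : ℕ} (w : Fin r → List (Letter k)) (κ N : ℕ) (H : ℝ) :
    {s : Fin k → ℕ | (∀ j, N ≤ s j ∧ s j ≤ κ * N) ∧ ¬ NoRelation w H s} = exceptional w κ N H := by
  ext s
  constructor
  · rintro ⟨h1, h2⟩
    unfold NoRelation at h2
    push Not at h2
    obtain ⟨c, h3, h4, h5⟩ := h2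
    exact ⟨h1, c, h5, h3, h4⟩
  · rintro ⟨h1, c, h3, h4, h5⟩
    exact ⟨h1, fun h => h3 (h c h4 h5)⟩

lemma pow_bound (C : ℝ) {N T : ℕ} (h : T ≤ 2 * N) : C ^ T ≤ ((max |C| 1) ^ 2) ^ N := by
  have h5 : (1 : ℝ) ≤ max |C| 1 := le_max_right _ _
  calc C ^ T ≤ |C ^ T| := le_abs_self _
    _ = |C| ^ T := abs_pow C T
    _ ≤ (max |C| 1) ^ T := pow_le_pow_left₀ (abs_nonneg C) (le_max_left _ _) T
    _ ≤ (max |C| 1) ^ (2 * N) := pow_le_pow_right₀ h5 h
    _ = _ := pow_mul _ _ _

/-- the bad arguments for one family of patterns: a bounded number of them in `[N, 2 N]` -/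
lemma bounded {r : ℕ} (w : Fin r → List (Letter 1)) (hw : OneWeight w) (C : ℝ) :
    ∃ K N₀ : ℕ, ∀ N : ℕ, N₀ ≤ N → {s : ℕ | N ≤ s ∧ s ≤ 2 * N ∧ ¬ NoRelation w (C ^ s) (fun _ => s)}.ncard ≤ K := by
  obtain ⟨K, hK⟩ := PatternsOfOneWeight.result w hw.1 hw.2.1 hw.2.2.1 hw.2.2.2 2
  obtain ⟨N₀, hN₀⟩ := hK ((max |C| 1) ^ 2)
  refine ⟨K, N₀, fun N hN => ?_⟩
  have h1 := hN₀ N hN
  rw [Nat.sub_self, pow_zero, mul_one] at h1
  refine le_trans ?_ h1
  have hfin : (exceptional w 2 N (((max |C| 1) ^ 2) ^ N)).Finite := by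
    refine (Set.Finite.pi' (t := fun _ : Fin 1 => Set.Icc N (2 * N)) fun _ => Set.finite_Icc _ _).subset ?_
    intro s hs j
    exact ⟨(hs.1 j).1, (hs.1 j).2⟩
  refine Set.ncard_le_ncard_of_injOn (fun s : ℕ => (fun _ : Fin 1 => s)) (fun s hs => ?_) ?_ hfin
  · rw [← exceptional_eq]
    exact ⟨fun _ => ⟨hs.1, hs.2.1⟩, fun h => hs.2.2 (mono w (pow_bound C hs.2.1) _ h)⟩
  · intro s _ s' _ hss
    exact congrFun hss 0

/-- the patterns and `C` -/
abbrev Data : Type := (Σ r : ℕ, Fin r → List (Letter 1)) × ℕ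

/-- `s` is bad for the data -/
def BadFor (q : Data) (s : ℕ) : Prop :=
  OneWeight q.1.2 ∧ ¬ NoRelation q.1.2 ((q.2 : ℝ) ^ s) (fun _ : Fin 1 => s)

/-- (1) Let `w_1, ..., w_r` satisfy `OneWeight` in `k ≥ 1` variables, `κ` a natural number, `C` a real number,
`F_1, ..., F_k` functions with `LM`, `θ ≥ 0`, `k θ < 1`, and `U` a natural number. For all large `N` and all but at most
`N^k / (log N)^U` of the tuples `m` of integers in `[1, N]`: for ALL tuples `s` of natural numbers with
`|s_i - F_i(m_i)| ≤ F_i(m_i)^θ` and all `T ≥ 1` with `T ≤ s_i ≤ κ T` for all `i`, the multiple zeta values `ζ(w_i(s))`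
satisfy no nontrivial linear relation with integer coefficients of absolute value at most `C ^ T`.
(2) `orb f j m` is `f(φ_j(m))`, `φ_j` the `j`-th iterate of Euler's function, `φ_0(m) = m`. Let `f` be a function with
`LM`, `G` expanding and `0 ≤ θ < 1`. There are `K(m)` tending to infinity and a set `M` of natural numbers of density one
such that for all `w_1, ..., w_r` in one variable with `OneWeight` and all real `C`, for all large `m` in `M`, for all
`j ≤ K(m)`, with `v = f(φ_j(m))`, and ALL `s ≥ 1` with `|s - G v| ≤ v^θ`, the multiple zeta values `ζ(w_i(s))` satisfy no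
nontrivial linear relation with integer coefficients of absolute value at most `C ^ s`.
(3) The identity, Euler's function and the sum of the divisors satisfy `LM`; `α v^d` with `α > 0`, `d ≥ 1` is
expanding. -/
theorem result :
    (∀ {k r : ℕ}, 1 ≤ k → ∀ w : Fin r → List (Letter k), OneWeight w → ∀ (κ : ℕ) (C : ℝ)
      (F : Fin k → ℕ → ℕ), (∀ i, LM (F i)) → ∀ θ : ℝ, 0 ≤ θ → k * θ < 1 → ∀ U : ℕ,
      ∃ N₀ : ℕ, ∀ N : ℕ, N₀ ≤ N →
      ({m : Fin k → ℕ | (∀ i, 1 ≤ m i ∧ m i ≤ N) ∧ ¬ ∀ (s : Fin k → ℕ) (T : ℕ), 1 ≤ T →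
        (∀ i, T ≤ s i ∧ s i ≤ κ * T) → (∀ i, |(s i : ℝ) - F i (m i)| ≤ (F i (m i) : ℝ) ^ θ) →
          NoRelation w (C ^ T) s}.ncard : ℝ) ≤ (N : ℝ) ^ k / Real.log N ^ U) ∧
    (∀ f : ℕ → ℕ, LM f → ∀ (G : ℕ → ℝ) (d : ℝ), Expanding G d → ∀ θ : ℝ, 0 ≤ θ → θ < 1 →
      ∃ K : ℕ → ℕ, Tendsto K atTop atTop ∧ ∃ M : Set ℕ, AlmostAll (fun m => m ∈ M) ∧
      ∀ {r : ℕ} (w : Fin r → List (Letter 1)) (C : ℝ), OneWeight w →
        ∃ m₀ : ℕ, ∀ m ∈ M, m₀ ≤ m → ∀ j ≤ K m, ∀ s : ℕ, 1 ≤ s →
          |(s : ℝ) - G (orb f j m)| ≤ (orb f j m : ℝ) ^ θ → NoRelation w (C ^ s) (fun _ => s)) ∧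
    (LM (fun m => m) ∧ LM Nat.totient ∧ LM (fun m => ∑ d ∈ m.divisors, d)) ∧
    ∀ α d : ℝ, 0 < α → 1 ≤ d → Expanding (fun v => α * (v : ℝ) ^ d) d := by
  refine ⟨fun {k r} hk w hw κ C F hF θ hθ hθk U => ?_, fun f hf G d hG θ hθ hθ1 => ?_, ⟨lm_id, lm_totient, lm_sigma⟩,
    fun α d hα hd => expanding_pow hα hd⟩
  · obtain ⟨K, hK⟩ := PatternsOfOneWeight.result w hw.1 hw.2.1 hw.2.2.1 hw.2.2.2 (2 * κ)
    obtain ⟨N₁, hN₁⟩ := hK ((max |C| 1) ^ 2)
    obtain ⟨N₀, hN₀⟩ := Pool.Agent.N760.SC.keep_scales hk κ (fun T s => ¬ NoRelation w (C ^ T) s)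
      (fun N s => ¬ NoRelation w (((max |C| 1) ^ 2) ^ N) s)
      (fun N T s h1 h2 h3 h4 => h3 (mono w (pow_bound C h2.le) s h4))
      ⟨K, N₁, fun N hN => by
        rw [exceptional_eq]
        exact hN₁ N hN⟩ hF hθ hθk U
    refine ⟨N₀, fun N hN => le_trans (le_of_eq ?_) (hN₀ N hN)⟩
    simp only [not_not]
  · haveI : Nonempty Data := ⟨(⟨0, fun i => i.elim0⟩, 0)⟩
    obtain ⟨e, he⟩ := exists_surjective_nat Data
    obtain ⟨K, hK, hK2⟩ := Pool.Agent.N760.SC.orbit_one (fun a s => BadFor (e a) s) (fun a => by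
        by_cases h : OneWeight (e a).1.2
        · obtain ⟨K, N₀, h1⟩ := bounded (e a).1.2 h ((e a).2 : ℝ)
          refine ⟨K, N₀, fun N hN => le_trans (Set.ncard_le_ncard ?_ ?_) (h1 N hN)⟩
          · rintro s ⟨g1, g2, g3⟩
            exact ⟨g1, g2, g3.2⟩
          · exact (Set.finite_Icc N (2 * N)).subset (fun s hs => ⟨hs.1, hs.2.1⟩)
        · refine ⟨0, 0, fun N _ => ?_⟩
          have : {s : ℕ | N ≤ s ∧ s ≤ 2 * N ∧ BadFor (e a) s} = ∅ := by
            ext s
            simp only [Set.mem_ofPred_eq, Set.mem_empty_iff_false, iff_false]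
            rintro ⟨-, -, h1⟩
            exact h h1.1
          rw [this, Set.ncard_empty]) hf hG hθ hθ1
    refine ⟨K, hK, _, hK2, fun {r} w C hw => ?_⟩
    obtain ⟨C', hC'⟩ := exists_nat_ge |C|
    obtain ⟨a, ha⟩ := he (⟨r, w⟩, C')
    obtain ⟨m₀, hm₀⟩ := Filter.eventually_atTop.1 (hK.eventually_ge_atTop a)
    refine ⟨m₀, fun m hm hmm j hj s hs hw' => ?_⟩
    have h1 := hm j hj a (hm₀ m hmm) s hs hw'
    rw [ha] at h1
    have h2 : NoRelation w ((C' : ℝ) ^ s) (fun _ => s) := by
      by_contra hcon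
      exact h1 ⟨hw, hcon⟩
    refine mono w ?_ _ h2
    calc C ^ s ≤ |C ^ s| := le_abs_self _
      _ = |C| ^ s := abs_pow C s
      _ ≤ (C' : ℝ) ^ s := pow_le_pow_left₀ (abs_nonneg C) hC' s

end Pool.Agent.Results.MP_2000e9_nt.ArgumentsNearValues
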