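import Mathlib
import Pool.Agent.N778.MZ.Sum

set_option autoImplicit false

/-!
# Zagier's dimension conjecture, damped: a sum rule for the dimensions

Here `m_1` is the largest summation variable, so the sequences are reversed in comparison with the problem page. For a
sequence `w = (k_1, …, k_r)`, `r ≥ 1`, of positive integers and `j ≥ 0` let `H_j(w)` be the truncated multiple zeta value
`∑ 1/(m_1^{k_1} … m_r^{k_r})`, the sum over `j ≥ m_1 > … > m_r ≥ 1`, and, if `w` is admissible (`k_1 ≥ 2`), `ζ(w)` the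
multiple zeta value. Let `S_w(x) = exp (-x) * ∑_j x^j/j! * H_j(w)` be the Poisson mean of the truncated values and
`T_w(x) = exp (-x) * ∑_j x^j/j! * (ζ(w) - H_j(w))` the Poisson mean of the tails (the sums over `m_1 > j`). So
`T_w(0) = ζ(w)`, `S_w(x) + T_w(x) = ζ(w)` and `S_w(x) → ζ(w)` for real `x → ∞`.

Let `F` be the field which is generated by all algebraic numbers and all numbers `exp b`, `b` algebraic.

(1) The numbers `S_w(x)`, for all sequences `w` as above and all algebraic numbers `x ≠ 0`, and `1` are linearly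
independent over `F`.

For a finite set `W` of admissible sequences let `Z_W(x)` be the space over `F` which is spanned by the numbers `T_w(x)`,
`w` in `W`, and `Z'_W(x) = F + Z_W(x)`. For example `W` is the set of the `2 ^ (N - 2)` admissible sequences of weight
`N ≥ 2`; then `Z_W(0)` is the space which is spanned by all multiple zeta values of weight `N`; or `W` is the set of the
`2 ^ (N - 1) - 1` admissible sequences of weight at most `N`.

(2) `∑ (|W| + 1 - dim Z'_W(x)) ≤ |W|` and `∑ (|W| - dim Z_W(x)) ≤ |W|`, the sums over all algebraic numbers `x`,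
including `0`.

(3) `∑ (|W| + 1 - dim Z'_W(x)) ≤ dim Z'_W(0) - 1` and `∑ (|W| - dim Z_W(x)) ≤ dim Z'_W(0) - 1`, the sums over all
algebraic numbers `x ≠ 0`.

In weight `N` one has `dim Z'_W(0) - 1 ≤ dim Z_W(0) ≤ d_N` (Terasoma, Deligne-Goncharov). So if the dimension is `2 ^ (N - 2) - m(x)`
at `x`, the sum of all numbers `m(x)`, `x ≠ 0`, is at most `d_N`, and the sum of all numbers `m(x)` is at most
`2 ^ (N - 2)`; the conjecture says that `m(0) = 2 ^ (N - 2) - d_N` (over the rationals).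

Proof. The series `∑ H_n(w) x^n t^n / n!`, multiplied with `exp (-x t)`, is a combination of iterated integrals of
`dt/t`, `(exp (x t) - 1) dt/t`, `(exp (-x t) - 1) dt/t` with a leading word which determines `w` and `x`. The words are
linearly independent over the exponentials, and the values at algebraic points of such functions satisfy no new relations
(helper902, from the Siegel-Shidlovskii theorem in the starting files). The rest is linear algebra: a relation
`c_0 + ∑ c_w T_w(x) = 0` says that `∑ c_w S_w(x)` is in `Z'_W(0)`, and the sum of these elements over different `x`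
determines all coefficients.
-/

namespace Pool.Agent.Results.MP_2000e9_nt.DampedDimensions

open Filter Topology

/-- the truncated multiple zeta value: `H_j(k_1, …, k_r)` is the sum over `j ≥ m_1 > … > m_r ≥ 1` -/
noncomputable def H : List ℕ → ℕ → ℂ
  | [], _ => 1
  | k :: w, j => ∑ i ∈ Finset.range j, H w i / ((i : ℂ) + 1) ^ k

/-- the multiple zeta value (here `m_1 = i + 1`) -/
noncomputable def zeta : List ℕ → ℂ
  | [] => 1
  | k :: w => ∑' i : ℕ, H w i / ((i : ℂ) + 1) ^ k

/-- the tail: the sum over `m_1 > j` (here `m_1 = i + j + 1`) -/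
noncomputable def tail : List ℕ → ℕ → ℂ
  | [], _ => 0
  | k :: w, j => ∑' i : ℕ, H w (i + j) / ((i : ℂ) + j + 1) ^ k

/-- `S_w(x)` -/
noncomputable def S (w : List ℕ) (x : ℂ) : ℂ := Complex.exp (-x) * ∑' j : ℕ, x ^ j / j.factorial * H w j

/-- `T_w(x)` -/
noncomputable def T (w : List ℕ) (x : ℂ) : ℂ := Complex.exp (-x) * ∑' j : ℕ, x ^ j / j.factorial * tail w j

/-- nonempty sequences of integers `≥ 1` -/
def Pos (w : List ℕ) : Prop := w ≠ [] ∧ ∀ k ∈ w, 1 ≤ k

/-- nonempty sequences of integers `≥ 1` with `k_1 ≥ 2` -/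
def Admissible (w : List ℕ) : Prop := Pos w ∧ ∀ k ∈ w.head?, 2 ≤ k

/-- the field `F` -/
noncomputable def baseField : IntermediateField ℚ ℂ := IntermediateField.adjoin ℚ
  ({z | IsAlgebraic ℚ z} ∪ {z | ∃ b : ℂ, IsAlgebraic ℚ b ∧ z = Complex.exp b})

/-- the dimension of `Z_W(x)` -/
noncomputable def dimZ (W : Finset (List ℕ)) (x : ℂ) : ℕ :=
  Module.finrank baseField (Submodule.span baseField ((fun w => T w x) '' (W : Set (List ℕ))))

/-- the dimension of `Z'_W(x)` -/
noncomputable def dimZ' (W : Finset (List ℕ)) (x : ℂ) : ℕ :=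
  Module.finrank baseField (Submodule.span baseField (insert 1 ((fun w => T w x) '' (W : Set (List ℕ)))))

open Pool.Agent.N778

theorem baseField_eq : baseField = MZ.L0 := rfl

theorem H_eq (w : List ℕ) (j : ℕ) : H w j = MZ.H w j := by
  induction w generalizing j with
  | nil => rfl
  | cons k w ih =>
    rw [H, MZ.H]
    exact Finset.sum_congr rfl fun i _ => by rw [ih]

theorem zeta_eq (w : List ℕ) : zeta w = MZ.zt w := by
  rcases w with _ | ⟨k, w⟩
  · rfl
  · rw [zeta, MZ.zt]
    exact tsum_congr fun i => by rw [H_eq]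

theorem tail_eq (w : List ℕ) (j : ℕ) : tail w j = MZ.tl w j := by
  rcases w with _ | ⟨k, w⟩
  · rfl
  · rw [tail, MZ.tl]
    exact tsum_congr fun i => by rw [H_eq]

theorem S_eq (w : List ℕ) (x : ℂ) : S w x = MZ.S w x := by
  rw [S, MZ.S]
  congr 1
  exact tsum_congr fun j => by rw [H_eq]

theorem T_eq (w : List ℕ) (x : ℂ) : T w x = MZ.T w x := by
  rw [T, MZ.T]
  congr 1
  exact tsum_congr fun j => by rw [tail_eq]

theorem adm_iff {w : List ℕ} (h : Admissible w) : MZ.AdW w := by
  rcases w with _ | ⟨k, w⟩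
  · exact absurd rfl h.1.1
  · exact ⟨h.2 k (by simp), fun l hl => h.1.2 l (List.mem_cons_of_mem _ hl)⟩

theorem li_S (X : Set ℂ) (hX : ∀ x ∈ X, IsAlgebraic ℚ x ∧ x ≠ 0) : LinearIndependent baseField
    (fun o : Option {p : List ℕ × ℂ // Pos p.1 ∧ p.2 ∈ X} => (o.elim 1 (fun p => S p.1.1 p.1.2) : ℂ)) := by
  have h := MZ.li_Sn X hX
  have e : (fun o : Option {p : List ℕ × ℂ // Pos p.1 ∧ p.2 ∈ X} => (o.elim 1 (fun p => S p.1.1 p.1.2) : ℂ)) =
      (fun o : Option {p : List ℕ × ℂ // MZ.Wo p.1 ∧ p.2 ∈ X} => (o.elim 1 (fun p => MZ.S p.1.1 p.1.2) : ℂ)) := by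
    funext o
    rcases o with _ | p
    · rfl
    · exact S_eq p.1.1 p.1.2
  rw [e]
  exact h

theorem li_fin {W : Finset (List ℕ)} (hW : ∀ w ∈ W, Admissible w) {t : Finset ℂ}
    (ht : ∀ x ∈ t, IsAlgebraic ℚ x ∧ x ≠ 0) :
    LinearIndependent baseField (fun o : Option (W × t) => (o.elim 1 (fun p => S p.1 p.2) : ℂ)) := by
  have h := li_S {x | IsAlgebraic ℚ x ∧ x ≠ 0} (fun x hx => hx)
  let g : W × t → {p : List ℕ × ℂ // Pos p.1 ∧ p.2 ∈ {x : ℂ | IsAlgebraic ℚ x ∧ x ≠ 0}} :=
    fun p => ⟨(p.1, p.2), (hW _ p.1.2).1, ht _ p.2.2⟩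
  have hg : Function.Injective g := by
    intro p q hpq
    have e1 : (p.1 : List ℕ) = q.1 :=
      congrArg (fun z : {p : List ℕ × ℂ // Pos p.1 ∧ p.2 ∈ {x : ℂ | IsAlgebraic ℚ x ∧ x ≠ 0}} => z.1.1) hpq
    have e2 : (p.2 : ℂ) = q.2 :=
      congrArg (fun z : {p : List ℕ × ℂ // Pos p.1 ∧ p.2 ∈ {x : ℂ | IsAlgebraic ℚ x ∧ x ≠ 0}} => z.1.2) hpq
    exact Prod.ext (Subtype.ext e1) (Subtype.ext e2)
  have h2 := h.comp (Option.map g) (Option.map_injective hg)
  have e : (fun o : Option (W × t) => (o.elim 1 (fun p => S p.1 p.2) : ℂ)) =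
      (fun o : Option {p : List ℕ × ℂ // Pos p.1 ∧ p.2 ∈ {x : ℂ | IsAlgebraic ℚ x ∧ x ≠ 0}} =>
        (o.elim 1 (fun p => S p.1.1 p.1.2) : ℂ)) ∘ Option.map g := by
    funext o
    rcases o with _ | p
    · rfl
    · rfl
  rw [e]
  exact h2

/-- the family `1`, `T_w(x)` -/
noncomputable def fam (W : Finset (List ℕ)) (x : ℂ) : Option W → ℂ := fun o => o.elim 1 (fun w => zeta w - S w x)

theorem T_sub {W : Finset (List ℕ)} (hW : ∀ w ∈ W, Admissible w) (x : ℂ) {w : List ℕ} (hw : w ∈ W) :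
    zeta w - S w x = T w x := by
  rw [T_eq, zeta_eq, S_eq]
  exact (MZ.Tn_eq (adm_iff (hW w hw)) x).symm

theorem range_fam {W : Finset (List ℕ)} (hW : ∀ w ∈ W, Admissible w) (x : ℂ) :
    Set.range (fam W x) = insert 1 ((fun w => T w x) '' (W : Set (List ℕ))) := by
  ext z
  constructor
  · rintro ⟨o, rfl⟩
    rcases o with _ | w
    · exact Set.mem_insert _ _
    · exact Set.mem_insert_of_mem _ ⟨w, w.2, (T_sub hW x w.2).symm⟩
  · rintro (rfl | ⟨w, hw, rfl⟩)
    · exact ⟨none, rfl⟩
    · exact ⟨some ⟨w, hw⟩, T_sub hW x hw⟩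

theorem rels_dim {W : Finset (List ℕ)} (hW : ∀ w ∈ W, Admissible w) (x : ℂ) :
    Module.finrank baseField (MZ.rels baseField (fam W x)) + dimZ' W x = W.card + 1 := by
  have h := MZ.rels_add_span (F := baseField) (fam W x)
  rw [Fintype.card_option, Fintype.card_coe, range_fam hW] at h
  exact h

theorem dim_le {W : Finset (List ℕ)} (x : ℂ) : dimZ' W x ≤ dimZ W x + 1 := by
  classical
  have h1 : insert (1 : ℂ) ((fun w => T w x) '' (W : Set (List ℕ))) = {1} ∪ (fun w => T w x) '' (W : Set (List ℕ)) :=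
    rfl
  have h2 : (W : Set (List ℕ)).Finite := W.finite_toSet
  have hf1 : Module.Finite baseField (Submodule.span baseField ({1} : Set ℂ)) :=
    Module.Finite.span_of_finite _ (Set.finite_singleton _)
  have hf2 : Module.Finite baseField (Submodule.span baseField ((fun w => T w x) '' (W : Set (List ℕ)))) :=
    Module.Finite.span_of_finite _ (h2.image _)
  rw [dimZ', h1, Submodule.span_union]
  have h3 := Submodule.finrank_add_le_finrank_add_finrank (Submodule.span baseField ({1} : Set ℂ))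
    (Submodule.span baseField ((fun w => T w x) '' (W : Set (List ℕ))))
  have h4 : Module.finrank baseField (Submodule.span baseField ({1} : Set ℂ)) ≤ 1 := by
    have := finrank_span_le_card (R := baseField) ({1} : Set ℂ)
    simpa using this
  rw [dimZ]
  have h5 : Module.finrank baseField ↥(Submodule.span baseField ({1} : Set ℂ) ⊔
      Submodule.span baseField ((fun w => T w x) '' (W : Set (List ℕ)))) ≤
      Module.finrank baseField (Submodule.span baseField ({1} : Set ℂ)) +
        Module.finrank baseField (Submodule.span baseField ((fun w => T w x) '' (W : Set (List ℕ)))) := h3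
  omega

theorem dimZ_le {W : Finset (List ℕ)} (x : ℂ) : dimZ W x ≤ W.card := by
  classical
  have h : (fun w => T w x) '' (W : Set (List ℕ)) = ((W.image fun w => T w x : Finset ℂ) : Set ℂ) := by
    rw [Finset.coe_image]
  rw [dimZ, h]
  exact (finrank_span_finset_le_card _).trans Finset.card_image_le

theorem fam_zero {W : Finset (List ℕ)} (hW : ∀ w ∈ W, Admissible w) :
    (fun o : Option W => (o.elim 1 (fun w => zeta w) : ℂ)) = fam W 0 := by
  funext o
  rcases o with _ | w
  · rfl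
  · show zeta w = zeta w - S w 0
    rw [S_eq, MZ.S_zeron (hW w w.2).1.1, sub_zero]

theorem sum1 {W : Finset (List ℕ)} (hW : ∀ w ∈ W, Admissible w) (t : Finset ℂ)
    (ht : ∀ x ∈ t, IsAlgebraic ℚ x ∧ x ≠ 0) :
    ∑ x ∈ t, Module.finrank baseField (MZ.rels baseField (fam W x)) + 1 ≤ dimZ' W 0 := by
  have h := MZ.sum_rule (F := baseField) W S zeta t (li_fin hW ht)
  rw [fam_zero hW, range_fam hW] at h
  exact h

/-- **Damped dimensions** -/
theorem result :
    (∀ w : List ℕ, Admissible w → T w 0 = zeta w ∧ (∀ x : ℂ, S w x + T w x = zeta w) ∧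
      Tendsto (fun x : ℝ => S w x) atTop (𝓝 (zeta w))) ∧
    LinearIndependent baseField (fun o : Option {p : List ℕ × ℂ // Pos p.1 ∧ IsAlgebraic ℚ p.2 ∧ p.2 ≠ 0} =>
      (o.elim 1 (fun p => S p.1.1 p.1.2) : ℂ)) ∧
    ∀ W : Finset (List ℕ), (∀ w ∈ W, Admissible w) →
      (∀ x, dimZ' W x ≤ W.card + 1 ∧ dimZ W x ≤ W.card) ∧
      (∀ t : Finset ℂ, (∀ x ∈ t, IsAlgebraic ℚ x) →
        ∑ x ∈ t, (W.card + 1 - dimZ' W x) ≤ W.card ∧ ∑ x ∈ t, (W.card - dimZ W x) ≤ W.card) ∧
      ∀ t : Finset ℂ, (∀ x ∈ t, IsAlgebraic ℚ x ∧ x ≠ 0) →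
        ∑ x ∈ t, (W.card + 1 - dimZ' W x) ≤ dimZ' W 0 - 1 ∧ ∑ x ∈ t, (W.card - dimZ W x) ≤ dimZ' W 0 - 1 := by
  classical
  refine ⟨fun w hw => ⟨?_, fun x => ?_, ?_⟩, ?_, fun W hW => ?_⟩
  · rw [T_eq, zeta_eq]
    exact MZ.T_zeron (adm_iff hw)
  · rw [T_eq, zeta_eq, S_eq]
    exact MZ.S_add_Tn (adm_iff hw) x
  · rw [zeta_eq]
    have h := MZ.Sn_tendsto (adm_iff hw)
    refine h.congr fun x => ?_
    rw [S_eq]
  · exact li_S {x | IsAlgebraic ℚ x ∧ x ≠ 0} (fun x hx => hx)
  · have hr : ∀ x, W.card + 1 - dimZ' W x = Module.finrank baseField (MZ.rels baseField (fam W x)) := fun x => by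
      have := rels_dim hW x
      omega
    have hr' : ∀ x, W.card - dimZ W x ≤ Module.finrank baseField (MZ.rels baseField (fam W x)) := fun x => by
      have h1 := rels_dim hW x
      have h2 := dim_le (W := W) x
      omega
    have key : ∀ t : Finset ℂ, (∀ x ∈ t, IsAlgebraic ℚ x ∧ x ≠ 0) →
        ∑ x ∈ t, (W.card + 1 - dimZ' W x) ≤ dimZ' W 0 - 1 ∧ ∑ x ∈ t, (W.card - dimZ W x) ≤ dimZ' W 0 - 1 := by
      intro t ht
      have h1 := sum1 hW t ht
      have h2 : ∑ x ∈ t, (W.card + 1 - dimZ' W x) =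
          ∑ x ∈ t, Module.finrank baseField (MZ.rels baseField (fam W x)) := Finset.sum_congr rfl fun x _ => hr x
      have h3 : ∑ x ∈ t, (W.card - dimZ W x) ≤ ∑ x ∈ t, Module.finrank baseField (MZ.rels baseField (fam W x)) :=
        Finset.sum_le_sum fun x _ => hr' x
      omega
    refine ⟨fun x => ⟨?_, dimZ_le x⟩, fun t ht => ?_, key⟩
    · have := rels_dim hW x
      omega
    · have h1 := key (t.erase 0) fun x hx => ⟨ht x (Finset.mem_erase.1 hx).2, (Finset.mem_erase.1 hx).1⟩
      have h2 := dimZ_le (W := W) 0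
      have h3 := dim_le (W := W) 0
      have h4 := rels_dim hW 0
      by_cases h0 : (0 : ℂ) ∈ t
      · rw [← Finset.add_sum_erase _ _ h0, ← Finset.add_sum_erase _ _ h0]
        have h5 := sum1 hW (∅ : Finset ℂ) (by simp)
        rw [Finset.sum_empty] at h5
        omega
      · rw [Finset.erase_eq_of_notMem h0] at h1
        omega

end Pool.Agent.Results.MP_2000e9_nt.DampedDimensions
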